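import Pool.Agent.W751.RD.Stm

/-!
Project RD (MP_8f2e1c_an), part RDYN: two trapping discs, around zero and around infinity.
-/

set_option autoImplicit false

open Polynomial Filter Topology MeasureTheory
open scoped OnePoint

namespace W327.RD

open Pool.Agent.H762R2.Rt Pool.Agent.H462R2.AP
open Pool.Agent.Helper114.Herman Pool.Agent.Helper114.Konig
open Pool.Agent.W751.CD Pool.Agent.W751.RD

/-- a continuous function on the closed unit disc which is off the window is small or large -/
theorem dich {G : ℂ → ℂ} {s t : ℝ} (hst : s / 4 ≤ 4 / t)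
    (hG : ContinuousOn G (Metric.closedBall 0 1))
    (hoff : ∀ y ∈ Metric.closedBall (0 : ℂ) 1, Off s t (G y)) :
    (∀ y ∈ Metric.closedBall (0 : ℂ) 1, ‖G y‖ < s / 4) ∨
      (∀ y ∈ Metric.closedBall (0 : ℂ) 1, 4 / t < ‖G y‖) := by
  by_contra hcon
  rw [not_or] at hcon
  obtain ⟨h1, h2⟩ := hcon
  push Not at h1 h2
  obtain ⟨y1, hy1, h1⟩ := h1
  obtain ⟨y2, hy2, h2⟩ := h2
  have hy1' : 4 / t < ‖G y1‖ := (hoff y1 hy1).resolve_left (not_lt.2 h1)
  have hy2' : ‖G y2‖ < s / 4 := (hoff y2 hy2).resolve_right (not_lt.2 h2)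
  have hpre : IsPreconnected (Metric.closedBall (0 : ℂ) 1) :=
    (convex_closedBall (0 : ℂ) 1).isPreconnected
  have hiv := hpre.intermediate_value hy2 hy1 hG.norm
  obtain ⟨y, hy, hys⟩ := hiv ⟨hy2'.le, hst.trans hy1'.le⟩
  simp only at hys
  rcases hoff y hy with h | h
  · rw [hys] at h; exact lt_irrefl _ h
  · rw [hys] at h; linarith

/-- Cauchy's estimate -/
theorem cauchy_lip {h : ℂ → ℂ} (hd : ∀ y ∈ Metric.closedBall (0 : ℂ) 1, DifferentiableAt ℂ h y)
    (hb : ∀ y ∈ Metric.closedBall (0 : ℂ) 1, ‖h y‖ < 1 / 4) {x y : ℂ} (hx : ‖x‖ ≤ 1 / 2)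
    (hy : ‖y‖ ≤ 1 / 2) : ‖h x - h y‖ ≤ (1 / 2) * ‖x - y‖ := by
  have hsub : ∀ c : ℂ, ‖c‖ ≤ 1 / 2 → Metric.closedBall c (1 / 2) ⊆ Metric.closedBall (0 : ℂ) 1 := by
    intro c hc w hw
    rw [Metric.mem_closedBall, dist_eq_norm] at hw
    rw [mem_closedBall_zero_iff]
    have := norm_add_le (w - c) c
    rw [sub_add_cancel] at this
    linarith
  have hder : ∀ c ∈ Metric.closedBall (0 : ℂ) (1 / 2), ‖deriv h c‖ ≤ 1 / 2 := by
    intro c hc
    rw [mem_closedBall_zero_iff] at hc
    have h1 : DifferentiableOn ℂ h (Metric.closedBall c (1 / 2)) := fun w hw =>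
      (hd w (hsub c hc hw)).differentiableWithinAt
    have h2 : DiffContOnCl ℂ h (Metric.ball c (1 / 2)) := h1.diffContOnCl_ball subset_rfl
    have h3 := Complex.norm_deriv_le_of_forall_mem_sphere_norm_le (C := 1 / 4) (by norm_num) h2
      (fun w hw => (hb w (hsub c hc (Metric.sphere_subset_closedBall hw))).le)
    refine h3.trans ?_
    norm_num
  have hs1 : Metric.closedBall (0 : ℂ) (1 / 2) ⊆ Metric.closedBall (0 : ℂ) 1 :=
    Metric.closedBall_subset_closedBall (by norm_num)
  exact (convex_closedBall (0 : ℂ) (1 / 2)).norm_image_sub_le_of_norm_deriv_le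
    (fun w hw => hd w (hs1 hw)) hder (by rwa [mem_closedBall_zero_iff])
    (by rwa [mem_closedBall_zero_iff])

theorem P_monic {N : ℕ} (z : Fin N → ℂ) : (P z).Monic :=
  monic_prod_of_monic _ _ fun i _ => monic_X_sub_C (z i)

theorem P_natDegree {N : ℕ} (z : Fin N → ℂ) : (P z).natDegree = N := by
  unfold P
  rw [natDegree_prod_of_monic _ _ fun i _ => monic_X_sub_C (z i)]
  simp

theorem P_eval {N : ℕ} (z : Fin N → ℂ) (w : ℂ) : (P z).eval w = ∏ i, (w - z i) := by
  unfold P
  rw [eval_prod]
  simp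

theorem hom_P {N : ℕ} (z : Fin N → ℂ) (x : ℂ) : hom (P z) N 1 x = Pr z x := by
  by_cases hx : x = 0
  · subst hx
    rw [hom_zero, one_pow, mul_one]
    have h1 := (P_monic z).coeff_natDegree
    rw [P_natDegree] at h1
    rw [h1]
    simp [Pr]
  · rw [hom_ne (P_natDegree z).le hx, P_eval]
    unfold Pr
    have h2 : x ^ N = ∏ _i : Fin N, x := by simp
    rw [h2, ← Finset.prod_mul_distrib]
    refine Finset.prod_congr rfl fun i _ => ?_
    field_simp

theorem hom_C (a : ℂ) (A : ℂ[X]) (d : ℕ) (u v : ℂ) : hom (C a * A) d u v = a * hom A d u v := by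
  unfold hom
  rw [Finset.mul_sum]
  refine Finset.sum_congr rfl fun k _ => ?_
  rw [coeff_C_mul]
  ring

theorem coprime_P {N : ℕ} {z p : Fin N → ℂ} (h : ∀ i j, z i ≠ p j) : IsCoprime (P z) (P p) := by
  unfold P
  refine IsCoprime.prod_left fun i _ => IsCoprime.prod_right fun j _ => ?_
  exact isCoprime_X_sub_C_of_isUnit_sub (sub_ne_zero.2 (h i j)).isUnit

theorem rdyn : S_RDYN := by
  intro N hN z p a s t ha hs ht hst hzp h1 h2 h3
  have hst' : s / 4 ≤ 4 / t := by
    have e : 4 / t = 4 * (1 / t) := by ring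
    rw [e]; linarith [div_pos one_pos ht]
  have hcop0 : IsCoprime (P z) (P p) := coprime_P hzp
  have hCa : IsUnit (C a : ℂ[X]) := isUnit_C.2 ha.isUnit
  have hcop : IsCoprime (C a * P z) (P p) := (isCoprime_mul_unit_left_left hCa _ _).2 hcop0
  have hQ0 : P p ≠ 0 := (P_monic p).ne_zero
  obtain ⟨f, hf, -⟩ := exists_isRat hcop hQ0
  refine ⟨hcop, f, hf.cont, hf.eval, ?_⟩
  have hdP : (C a * P z).natDegree = N := by
    rw [natDegree_C_mul ha, P_natDegree]
  have hD : N = max (C a * P z).natDegree (P p).natDegree := by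
    rw [hdP, P_natDegree, max_self]
  have hN0 : 0 < N := hN
  -- the map in the charts
  obtain ⟨nm, hnm⟩ : ∃ nm : Bool → ℂ → ℂ, nm = fun i w => if i then a * Pr z w else a * (P z).eval w :=
    ⟨_, rfl⟩
  obtain ⟨dn, hdn⟩ : ∃ dn : Bool → ℂ → ℂ, dn = fun i w => if i then Pr p w else (P p).eval w :=
    ⟨_, rfl⟩
  obtain ⟨ρ, hρ⟩ : ∃ ρ : Bool → ℝ, ρ = fun i => if i then t else s := ⟨_, rfl⟩
  have hρ0 : ∀ i, 0 < ρ i := by
    intro i; rw [hρ]; cases i <;> simp [hs, ht]
  have hρt : ρ true = t := by rw [hρ]; simp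
  have hρf : ρ false = s := by rw [hρ]; simp
  have hfch : ∀ i w, f (ch i w) = pr (nm i w) (dn i w) := by
    intro i w
    cases i
    · have e1 : ch false w = pr w 1 := by rw [ch_false, pr_one]
      rw [e1, rat_formula hf hD hN0 (Or.inr one_ne_zero), hom_ne (le_of_eq hdP) one_ne_zero,
        hom_ne (le_of_eq (P_natDegree p)) one_ne_zero, hnm, hdn]
      simp
    · have e1 : ch true w = pr 1 w := by
        simp only [ch_true]
        rw [← pr_one w, sinv_pr (Or.inr one_ne_zero)]
      rw [e1, rat_formula hf hD hN0 (Or.inl one_ne_zero), hom_C, hom_P, hom_P, hnm, hdn]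
      simp
  obtain ⟨G, hG⟩ : ∃ G : Bool → ℂ → ℂ, G = fun i y => nm i (ρ i * y) / dn i (ρ i * y) := ⟨_, rfl⟩
  have hnrm : ∀ i (y : ℂ), y ∈ Metric.closedBall (0 : ℂ) 1 → ‖(ρ i : ℂ) * y‖ ≤ ρ i := by
    intro i y hy
    rw [mem_closedBall_zero_iff] at hy
    rw [norm_mul, Complex.norm_real, Real.norm_eq_abs, abs_of_pos (hρ0 i)]
    nlinarith [hρ0 i]
  have hok : ∀ i, ∀ y ∈ Metric.closedBall (0 : ℂ) 1, dn i (ρ i * y) ≠ 0 ∧ Off s t (G i y) := by
    intro i y hy
    have hn := hnrm i y hy
    cases i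
    · have hn' : ‖(ρ false : ℂ) * y‖ ≤ s := by
        refine hn.trans (le_of_eq ?_); rw [hρ]; simp
      obtain ⟨k1, k2⟩ := h1 _ hn'
      refine ⟨by rw [hdn]; simpa using k1, ?_⟩
      rw [hG, hdn, hnm]
      simp only [Bool.false_eq_true, if_false]
      unfold R at k2
      rw [mul_div_assoc]
      exact k2
    · have hn' : ‖(ρ true : ℂ) * y‖ ≤ t := by
        refine hn.trans (le_of_eq ?_); rw [hρ]; simp
      obtain ⟨k1, k2⟩ := h2 _ hn'
      refine ⟨by rw [hdn]; simpa using k1, ?_⟩
      rw [hG, hdn, hnm]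
      simp only [if_true]
      rw [mul_div_assoc]
      exact k2
  have hPrd : ∀ (q : Fin N → ℂ), Differentiable ℂ (Pr q) := by
    intro q
    unfold Pr
    exact Differentiable.fun_finsetProd fun i _ =>
      (differentiable_const _).sub ((differentiable_const _).mul differentiable_id)
  have hnmd : ∀ i, Differentiable ℂ (nm i) := by
    intro i
    rw [hnm]
    cases i
    · simp only [Bool.false_eq_true, if_false]
      exact (P z).differentiable.const_mul a
    · simp only [if_true]
      exact (hPrd z).const_mul a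
  have hdnd : ∀ i, Differentiable ℂ (dn i) := by
    intro i
    rw [hdn]
    cases i
    · simp only [Bool.false_eq_true, if_false]
      exact (P p).differentiable
    · simp only [if_true]
      exact hPrd p
  have hGd : ∀ i, ∀ y ∈ Metric.closedBall (0 : ℂ) 1, DifferentiableAt ℂ (G i) y := by
    intro i y hy
    rw [hG]
    have hl : DifferentiableAt ℂ (fun y : ℂ => (ρ i : ℂ) * y) y :=
      differentiableAt_id.const_mul _
    exact ((hnmd i _).comp y hl).fun_div ((hdnd i _).comp y hl) (hok i y hy).1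
  have hstep : ∀ i, ∃ (σ : Bool) (h : ℂ → ℂ),
      (∀ y ∈ Metric.closedBall (0 : ℂ) 1, f (ch i (ρ i * y)) = ch σ (ρ σ * h y)) ∧
      (∀ y ∈ Metric.closedBall (0 : ℂ) 1, DifferentiableAt ℂ h y) ∧
      (∀ y ∈ Metric.closedBall (0 : ℂ) 1, ‖h y‖ < 1 / 4) := by
    intro i
    rcases dich hst' (fun y hy => (hGd i y hy).continuousAt.continuousWithinAt)
      (fun y hy => (hok i y hy).2) with hsm | hlg
    · refine ⟨false, fun y => G i y / s, fun y hy => ?_, fun y hy => ?_, fun y hy => ?_⟩
      · rw [hfch, pr_ne (hok i y hy).1, ch_false, hρf, hG]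
        have hsc : (s : ℂ) ≠ 0 := by exact_mod_cast hs.ne'
        simp only
        rw [mul_div_cancel₀ _ hsc]
      · exact (hGd i y hy).div_const _
      · rw [norm_div, Complex.norm_real, Real.norm_eq_abs, abs_of_pos hs, div_lt_iff₀ hs]
        have := hsm y hy
        linarith
    · have h0 : ∀ y ∈ Metric.closedBall (0 : ℂ) 1, G i y ≠ 0 := by
        intro y hy h0
        have := hlg y hy
        rw [h0, norm_zero] at this
        have := div_pos (by norm_num : (0:ℝ) < 4) ht
        linarith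
      have htc : (t : ℂ) ≠ 0 := by exact_mod_cast ht.ne'
      refine ⟨true, fun y => (t * G i y)⁻¹, fun y hy => ?_, fun y hy => ?_, fun y hy => ?_⟩
      · have h5 : nm i (ρ i * y) ≠ 0 := by
          intro h6
          apply h0 y hy
          rw [hG]; simp only; rw [h6, zero_div]
        have h7 : (ρ true : ℂ) * (t * G i y)⁻¹ = dn i (ρ i * y) / nm i (ρ i * y) := by
          have h8 := (hok i y hy).1
          rw [hρt, hG]
          simp only
          rw [mul_inv, ← mul_assoc, mul_inv_cancel₀ htc, one_mul, inv_div]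
        rw [h7, hfch, ch_true]
        simp only
        rw [← pr_ne h5, sinv_pr (Or.inr h5)]
      · exact ((hGd i y hy).const_mul _).inv (mul_ne_zero htc (h0 y hy))
      · rw [norm_inv, norm_mul, Complex.norm_real, Real.norm_eq_abs, abs_of_pos ht]
        have h9 := hlg y hy
        rw [div_lt_iff₀ ht] at h9
        rw [inv_lt_comm₀ (by linarith [mul_comm ‖G i y‖ t]) (by norm_num)]
        norm_num
        linarith [mul_comm ‖G i y‖ t]
  choose σ h hconj hhd hhb using hstep
  have hhalf : ∀ x : ℂ, ‖x‖ ≤ 1 / 2 → x ∈ Metric.closedBall (0 : ℂ) 1 := by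
    intro x hx
    rw [mem_closedBall_zero_iff]; linarith
  have hS : ∀ i (x : ℂ), ‖x‖ ≤ 1 / 2 → Sinks f (ch i (ρ i * x)) := by
    intro i x hx
    have hψc : ∀ i, Continuous (fun y : ℂ => ch i (ρ i * y)) := fun i =>
      (continuous_ch i).comp (continuous_const.mul continuous_id)
    have hψo : ∀ i, IsOpenMap (fun y : ℂ => ch i (ρ i * y)) := fun i =>
      (isOpenMap_ch i).comp (Homeomorph.mulLeft₀ (ρ i : ℂ)
        (by exact_mod_cast (hρ0 i).ne')).isOpenMap
    exact two_charts' (ψ := fun i y => ch i (ρ i * y)) (σ := σ) (τ := fun _ => 1) (h := h)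
      (r := 1 / 2) hf.cont (by norm_num) (fun _ => one_pos) hψc hψo
      (fun i x hx => by rw [Function.iterate_one]; exact hconj i x (hhalf x hx))
      (fun i x hx => (hhb i x (hhalf x hx)).trans (by norm_num))
      (fun i x y hx hy => cauchy_lip (hhd i) (hhb i) hx hy) hx
  have hinf : Sinks f ∞ := by
    have e1 : ch true (ρ true * 0) = ∞ := by simp [ch, sinv_zero]
    rw [← e1]
    exact hS true 0 (by simp)
  have hzero : Sinks f ((0 : ℂ) : OnePoint ℂ) := by
    have e1 : ch false (ρ false * 0) = ((0 : ℂ) : OnePoint ℂ) := by simp [ch]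
    rw [← e1]
    exact hS false 0 (by simp)
  -- values off the window
  have hval : ∀ v : ℂ, Off s t v → Sinks f (v : OnePoint ℂ) := by
    intro v hv
    rcases hv with hv | hv
    · have e1 : ch false (ρ false * (v / s)) = (v : OnePoint ℂ) := by
        have hsc : (s : ℂ) ≠ 0 := by exact_mod_cast hs.ne'
        rw [ch_false, hρ]
        simp only [Bool.false_eq_true, if_false]
        rw [mul_div_cancel₀ _ hsc]
      rw [← e1]
      apply hS
      rw [norm_div, Complex.norm_real, Real.norm_eq_abs, abs_of_pos hs, div_le_iff₀ hs]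
      linarith
    · have hv0 : v ≠ 0 := by
        intro h0
        rw [h0, norm_zero] at hv
        have := div_pos (by norm_num : (0:ℝ) < 4) ht
        linarith
      have htc : (t : ℂ) ≠ 0 := by exact_mod_cast ht.ne'
      have e1 : ch true (ρ true * (t * v)⁻¹) = (v : OnePoint ℂ) := by
        rw [ch_true, hρ]
        simp only [if_true]
        rw [mul_inv, ← mul_assoc, mul_inv_cancel₀ htc, one_mul, sinv_coe (inv_ne_zero hv0), inv_inv]
      rw [← e1]
      apply hS
      rw [norm_inv, norm_mul, Complex.norm_real, Real.norm_eq_abs, abs_of_pos ht]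
      rw [div_lt_iff₀ ht] at hv
      rw [inv_le_comm₀ (by linarith [mul_comm ‖v‖ t]) (by norm_num)]
      norm_num
      linarith [mul_comm ‖v‖ t]
  have hpole : ∀ w : ℂ, (P p).eval w = 0 → Sinks f (w : OnePoint ℂ) := by
    intro w hw
    apply sinks_of_image hf.cont
    have e1 := hfch false w
    rw [hdn] at e1
    simp only [Bool.false_eq_true, if_false] at e1
    rw [hw, pr_zero, ch_false] at e1
    simp only at e1
    rw [e1]; exact hinf
  have hfG : ∀ w : ℂ, (P p).eval w ≠ 0 → f (w : OnePoint ℂ) = ((a * R z p w : ℂ) : OnePoint ℂ) := by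
    intro w hw
    rw [hf.eval w hw]
    congr 1
    unfold R
    rw [eval_mul, eval_C, mul_div_assoc]
  intro c hnot
  induction c using OnePoint.rec with
  | infty => exact hinf
  | coe w =>
    by_cases hp : (P p).eval w = 0
    · exact hpole w hp
    by_cases hz : (P z).eval w = 0
    · apply sinks_of_image hf.cont
      rw [hfG w hp]
      have e1 : a * R z p w = 0 := by unfold R; rw [hz, zero_div, mul_zero]
      rw [e1]; exact hzero
    by_cases hW : (wro (P z) (P p)).eval w = 0
    · apply sinks_of_image hf.cont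
      rw [hfG w hp]
      by_cases hoff : Off s t (a * R z p w)
      · exact hval _ hoff
      by_cases hp2 : (P p).eval (a * R z p w) = 0
      · exact hpole _ hp2
      apply sinks_of_image hf.cont
      rw [hfG _ hp2]
      apply hval
      exact (h3 w hp hz hW hoff).resolve_left hp2
    exfalso
    apply hnot
    have hder := ((C a * P z).hasStrictDerivAt w).fun_div ((P p).hasStrictDerivAt w) hp
    have hne : ((C a * P z).derivative.eval w * (P p).eval w -
        (C a * P z).eval w * (P p).derivative.eval w) / ((P p).eval w) ^ 2 ≠ 0 := by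
      apply div_ne_zero _ (pow_ne_zero _ hp)
      have e1 : (C a * P z).derivative.eval w * (P p).eval w -
          (C a * P z).eval w * (P p).derivative.eval w = a * (wro (P z) (P p)).eval w := by
        rw [wro, derivative_C_mul]
        simp only [eval_mul, eval_C, eval_sub]
        ring
      rw [e1]
      exact mul_ne_zero ha hW
    obtain ⟨U, hU, hinj⟩ := injOn_of_deriv hder hne
    have hUQ : {x : ℂ | (P p).eval x ≠ 0} ∈ 𝓝 w :=
      (isOpen_ne_fun (P p).continuous continuous_const).mem_nhds hp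
    refine ⟨(fun x : ℂ => (x : OnePoint ℂ)) '' (U ∩ {x : ℂ | (P p).eval x ≠ 0}), ?_, ?_⟩
    · exact (OnePoint.isOpenEmbedding_coe (X := ℂ)).isOpenMap.image_mem_nhds
        (inter_mem hU hUQ)
    · rintro _ ⟨x, ⟨hx, hxQ⟩, rfl⟩ _ ⟨y, ⟨hy, hyQ⟩, rfl⟩ hxy
      simp only at hxy
      rw [hf.eval x hxQ, hf.eval y hyQ, OnePoint.coe_eq_coe] at hxy
      rw [hinj hx hy hxy]

end W327.RD
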